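import Pool.Agent.Helper95.HV.Stmts

/-!
# Heavy nuclei: the number of nuclei is arbitrary (no logarithm). Statements

The only term of `ST_V2R` that is not screened is `2 Z_j T(e_m, α_k)`. Subtract and add the
electrons: `∑_j Z_j T(x_k - X_j)(e, a_k) - ∑_l T(x_k - x_l)(e, a_k)` is the derivative of the far
field (FGZ), and `∑_k ∑_l T(x_k - x_l)(e, a_k)` is the interaction energy of the dipoles `a_k` with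
the dipoles `e` at all electrons.
-/

set_option autoImplicit false

namespace Pool.Agent.Helper26.HW

open MeasureTheory Filter Pool.Agent.Helper95 Pool.Agent.Helper95.PW Pool.Agent.Helper95.LN
  Pool.Agent.Helper95.CF
open Pool.Agent.Helper95.HV

/-- row PCN (KK): pairs at distance `< d / 32`: `Kf (d/8) ≤ 16 / d`, so
`1/|ξ| - Kf ≥ 32/d - 16/d` there, and all terms of `Rem` are nonnegative; diagonal: `n` -/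
def ST_PCN : Prop := ∀ (d : ℝ) (n M : ℕ) (X : Fin M → R3) (x : Cf n), 0 < d → Dist X x →
  ∑ k, ∑ l, (if nr (x k - x l) < d / 32 then (1 : ℝ) else 0) ≤ n + d / 8 * Rem (d / 8) x

/-- row DIE (PHA PHB PHC MVP PCN; as DIP): `b = d / 64`, `Φ_a w = ∑ k, a k · ∇ (ph b) (w - x k)`,
`Φ_e w = ∑ l, e · ∇ (ph b) (w - x l)` (all electrons). `∫ ∇Φ_a · ∇Φ_e = -∫ ∇Φ_a · e ∑ l, et b (w - x l)`,
so it is `≤ (∫ |∇Φ_a|^2)^(1/2) (3 ∫ (∑ l, et b (w - x l))^2)^(1/2)`;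
`∫ |∇Φ_a|^2 ≤ ∫ |∑ k, et b (w - x k) a k|^2 ≤ C K^2 ∑ i, (cnt i)^2` and
`∫ (∑ l, et b (w - x l))^2 ≤ C #{(k, l) : nr (x k - x l) < 2 b = d / 32}` (PCN). Expand
`∫ ∇Φ_a · ∇Φ_e`: pairs with `2 b ≤ nr (x k - x l)` give exactly `-kap * Tq` (mean value property),
the other pairs and the pairs in one ball of radius `3/2 d` are `≤ C K` -/
def ST_DIE : Prop := ∀ d : ℝ, 0 < d → d ≤ 1 → ∃ C : ℝ, 0 < C ∧ ∀ (n M : ℕ)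
  (X : Fin M → R3) (x : Cf n) (e : R3) (a : Fin n → R3) (K : ℝ), Sep X d → Dist X x →
  (∀ m, |e m| ≤ 1) → (∀ k m, |a k m| ≤ K) → (∀ k, (∀ i, d / 2 < nr (x k - X i)) → a k = 0) →
  |∑ i, ∑ k, (if nr (x k - X i) ≤ d / 2 then
      (∑ l, if nr (x l - X i) < 3 / 2 * d then 0 else Tq (x k - x l) e (a k)) else 0)| ≤
    C * K * (∑ i, cnt X (3 / 2 * d) x i ^ 2 + n + Rem (d / 8) x)

/-- row UNS (DIE FGZ FFZ NBZ): the sum over the other nuclei -/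
def ST_UNS : Prop := ∀ d : ℝ, 0 < d → d ≤ 1 → ∃ C : ℝ, 0 < C ∧ ∀ (z K : ℝ) (n M : ℕ)
  (X : Fin M → R3) (Z : Fin M → ℝ) (x : Cf n) (e : R3) (a : Fin n → R3), Dat d z n X Z →
  Dist X x → 0 ≤ Dn (d / 8) X Z x → 0 ≤ Rem (d / 8) x → 1 ≤ K →
  (∀ m, |e m| ≤ 1) → (∀ k m, |a k m| ≤ K) → (∀ k, (∀ i, d / 2 < nr (x k - X i)) → a k = 0) →
  |∑ i, ∑ k, (if nr (x k - X i) ≤ d / 2 then
      (∑ j, if j = i then 0 else Z j * Tq (x k - X j) e (a k)) else 0)| ≤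
    C * K ^ 2 * Loc d z X Z x

/-- row V2R0 (NBZ FFZ FGZ DIP KK FLD CUT UNS): `ST_V2R` without `Λ`: the proof of V2R, the terms
`2 Z_j T(e_m, α_k)`, `j` not the own nucleus, by UNS (`0 ≤ Dn`, `0 ≤ Rem`: as in LOCY) -/
def ST_V2R0 : Prop := ∀ d : ℝ, 0 < d → d ≤ 1 → ∃ C : ℝ, 0 < C ∧ ∀ (z L : ℝ) (n M : ℕ)
  (X : Fin M → R3) (Z : Fin M → ℝ) (x : Cf n), Dat d z n X Z → 1 ≤ L →
  (∀ j, 2 * nr (X j) + 4 ≤ L) → Dist X x →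
  ∑ m, D2 X Z (fun y => gm m L y - gN X m (d / 8) y) x ≤
    C * Loc d z X Z x + C / L * (rep x + ∑ k, pot X Z (x k))

/-- row MRZ0 (DBS V2R0 LOCY FLD CUT CSQM STB AIDM CIDM KINM ERR QHM INTM AED): as MRZ with `Λ = 0`
on the right side -/
def ST_MRZ0 : Prop := ∀ d : ℝ, 0 < d → d ≤ 1 → ∃ C : ℝ, 0 < C ∧ ∀ (z L B E : ℝ) (n M : ℕ)
  (X : Fin M → R3) (Z : Fin M → ℝ), Dat d z n X Z → LowM n X Z E → 1 ≤ L →
  (∀ j, 2 * nr (X j) + 4 ≤ L) →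
  ∃ C' : ℝ, 0 < C' ∧ ∀ u : Wf n, Sm u → Anti u → PW.sq u ≤ 2 →
  kin u ≤ B → pair u ≤ B → one (pot X Z) u ≤ B → dd u ≤ B → resM X Z E u ≤ 1 →
  ∀ m, PW.sq (fun s => Pg (fun y => gm m L y - gN X m (d / 8) y) (u s)) ^ 2 ≤
    C * (n * (kin u + YY C d z X Z u + z * n + (pair u + one (pot X Z) u) / L)) +
    C' * Real.sqrt (resM X Z E u)

/-- row PRZ0 (MRZ0 TUPZ LIMG CUT FLD APXM LMTM QHM INTM POTB): as PRZ -/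
def ST_PRZ0 : Prop := ∀ d : ℝ, 0 < d → d ≤ 1 → ∃ C : ℝ, 0 < C ∧ ∀ (z E : ℝ) (n M : ℕ)
  (X : Fin M → R3) (Z : Fin M → ℝ) (φ : Wf n) (G : Fin n → Fin 3 → Wf n) (m : Fin 3),
  Dat d z n X Z → 1 ≤ M → E + nucR X Z ≤ 0 → GroundM n X Z E φ G →
  PW.sq (fun s x => (∑ k, G k m s x) - PG (gN X m (d / 8)) φ G s x) ^ 2 ≤
    C * (M : ℝ) ^ 2 * z ^ (10 / 3 : ℝ)

/-- row SUMZ0 (PSZ PIZ PRZ0 FLD): as SUMZ -/
def ST_SUMZ0 : Prop := ∀ d : ℝ, 0 < d → d ≤ 1 → ∃ C : ℝ, 0 < C ∧ ∀ (z E : ℝ) (n M : ℕ)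
  (X : Fin M → R3) (Z : Fin M → ℝ) (φ : Wf n) (G : Fin n → Fin 3 → Wf n),
  Dat d z n X Z → 1 ≤ M → E + nucR X Z ≤ 0 → GroundM n X Z E φ G →
  mom G ≤ C * (M * z ^ (34 / 15 : ℝ))

/-- row FINZ0 (SUMZ0 TLZ): as FINZ -/
def ST_FINZ0 : Prop := ∀ d κ : ℝ, 0 < d → 1 ≤ κ → ∃ z0 : ℝ, 1 ≤ z0 ∧ ∀ (z E : ℝ) (n M : ℕ)
  (X : Fin M → R3) (Z : Fin M → ℕ) (φ : Wf n) (G : Fin n → Fin 3 → Wf n),
  Sep X d → Nuc n (fun j => (Z j : ℝ)) → (∀ j, (Z j : ℝ) ≤ z) → (∀ j, z ≤ κ * Z j) → 1 ≤ M →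
  z0 ≤ z → GroundM n X (fun j => (Z j : ℝ)) E φ G → mom G ≤ 3 * kinG G

end Pool.Agent.Helper26.HW
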