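import Pool.Agent.Helper26.HW.Stmts
import Pool.Agent.Helper95.PM.Mol

/-!
# Heavy nuclei, any number: the final statement from `SUMZ0` and `TLZ`
-/

set_option autoImplicit false

namespace Pool.Agent.Helper26.HW

open MeasureTheory Filter Pool.Agent.Helper95 Pool.Agent.Helper95.PW Pool.Agent.Helper95.LN
  Pool.Agent.Helper95.CF

theorem heavy_of (hI : ST_INTM) (h1 : ST_SUMZ0) (h2 : HV.ST_TLZ) (κ d : ℝ) (hκ : 1 ≤ κ)
    (hd : 0 < d) : ∃ C z0 : ℝ, 0 < C ∧ 1 ≤ z0 ∧ ∀ (n M : ℕ) (X : Fin M → R3) (Z : Fin M → ℕ)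
    (z E : ℝ) (φ : Wf n) (G : Fin n → Fin 3 → Wf n), 1 ≤ M → MolGround n X Z E φ G → z0 ≤ z →
    (∀ j, z ≤ Z j) → (∀ j, (Z j : ℝ) ≤ κ * z) → (∀ i j, i ≠ j → d ≤ nr (X i - X j)) →
    mom G ≤ C * z ^ (-(1 / 15) : ℝ) * kinG G ∧ mom G ≤ 3 * kinG G := by
  obtain ⟨d', hd'⟩ : ∃ d' : ℝ, d' = min (d / 4) 1 := ⟨_, rfl⟩
  have hd'0 : 0 < d' := by rw [hd']; exact lt_min (by positivity) one_pos
  have hd'1 : d' ≤ 1 := by rw [hd']; exact min_le_right _ _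
  have hd'd : d' ≤ d / 4 := by rw [hd']; exact min_le_left _ _
  obtain ⟨C, hC, H1⟩ := h1 d' hd'0 hd'1
  obtain ⟨c, z1, hc, hz1, H2⟩ := h2 d' κ hd'0 hd'1 hκ
  have hCc : 0 < C / c := by positivity
  refine ⟨C / c, max z1 ((C / c) ^ 15), hCc, hz1.trans (le_max_left _ _), ?_⟩
  intro n M X Z z E φ G hM h hz hlo hup hX
  have hzz1 : z1 ≤ z := (le_max_left _ _).trans hz
  have hzc : (C / c) ^ 15 ≤ z := (le_max_right _ _).trans hz
  have hz1' : 1 ≤ z := hz1.trans hzz1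
  have hz0 : 0 < z := by linarith
  have hκz : z ≤ κ * z := by nlinarith
  have hκ0 : 0 < κ * z := by linarith
  have hS : Sep X d' := by
    intro i j hij
    have := hX i j hij
    linarith
  have hD : HV.Dat d' (κ * z) n X (fun j => (Z j : ℝ)) :=
    ⟨hd'0, hd'1, by linarith, hS, mol_nuc h, hup⟩
  have hG := mol_ground hI h
  obtain ⟨a1, a2⟩ := H2 (κ * z) (E - nuc X Z) n M X Z φ G hD hM (by linarith)
    (fun j => mul_le_mul_of_nonneg_left (hlo j) (by linarith)) hG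
  have a3 := H1 (κ * z) (E - nuc X Z) n M X (fun j => (Z j : ℝ)) φ G hD hM a1 hG
  have hM0 : (0 : ℝ) ≤ M := Nat.cast_nonneg M
  have hk : 0 ≤ kinG G := le_trans (by positivity) a2
  have b3 : (κ * z) ^ (34 / 15 : ℝ) = (κ * z) ^ (-(1 / 15) : ℝ) * (κ * z) ^ (7 / 3 : ℝ) := by
    rw [← Real.rpow_add hκ0]
    norm_num
  have b4 : (κ * z) ^ (-(1 / 15) : ℝ) ≤ z ^ (-(1 / 15) : ℝ) :=
    Real.rpow_le_rpow_of_nonpos hz0 hκz (by norm_num)
  have b5 : 0 ≤ (κ * z) ^ (-(1 / 15) : ℝ) := by positivity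
  have key : mom G ≤ C / c * z ^ (-(1 / 15) : ℝ) * kinG G := by
    calc mom G ≤ C * (M * (κ * z) ^ (34 / 15 : ℝ)) := a3
      _ = C / c * (κ * z) ^ (-(1 / 15) : ℝ) * (c * (M * (κ * z) ^ (7 / 3 : ℝ))) := by
          rw [b3]
          field_simp
      _ ≤ C / c * (κ * z) ^ (-(1 / 15) : ℝ) * kinG G :=
          mul_le_mul_of_nonneg_left a2 (by positivity)
      _ ≤ C / c * z ^ (-(1 / 15) : ℝ) * kinG G := by gcongr
  refine ⟨key, key.trans ?_⟩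
  refine mul_le_mul_of_nonneg_right ?_ hk
  have c1 : C / c ≤ z ^ (1 / 15 : ℝ) := by
    calc C / c = ((C / c) ^ 15) ^ (1 / 15 : ℝ) := by
          rw [← Real.rpow_natCast, ← Real.rpow_mul hCc.le]
          norm_num
      _ ≤ z ^ (1 / 15 : ℝ) := Real.rpow_le_rpow (by positivity) hzc (by norm_num)
  calc C / c * z ^ (-(1 / 15) : ℝ) ≤ z ^ (1 / 15 : ℝ) * z ^ (-(1 / 15) : ℝ) := by gcongr
    _ = 1 := by rw [← Real.rpow_add hz0]; norm_num
    _ ≤ 3 := by norm_num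

end Pool.Agent.Helper26.HW
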