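import Pool.Agent.Helper26.HW.Stmts

/-!
# Row V2R0: the nuclear terms without logarithm
-/

set_option autoImplicit false

namespace Pool.Agent.Helper26.HW

open MeasureTheory Filter Pool.Agent.Helper95 Pool.Agent.Helper95.PW Pool.Agent.Helper95.LN
  Pool.Agent.Helper95.CF
open Pool.Agent.Helper95.HV

/-- part NE0 (FLD CUT): `ST_NE` of Helper71/HV/Sub.lean where the cross term is kept only for the
own nucleus (`nr (y - X j) ≤ d / 2`), so that `Λ` is not needed. The other cross terms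
(`j` not the own nucleus of `x k`) are summed over `k` with `ST_UNS`, `e = e_m`
(`gv (gm m L) y = e_m` if `nr y < L`), `a k = gv (gN X m (d/8)) (x k)`. Then
`V2R0 = V2I + VL + PE + NE0 + UNS` -/
def ST_NE0 : Prop := ∀ d : ℝ, 0 < d → d ≤ 1 → ∃ C : ℝ, 0 < C ∧ ∀ (z L : ℝ) (n M : ℕ)
  (X : Fin M → R3) (Z : Fin M → ℝ) (y : R3), Dat d z n X Z → 1 ≤ L →
  (∀ j, 2 * nr (X j) + 4 ≤ L) → (∀ j, nr (y - X j) ≠ 0) →
  ∑ m, ∑ j, Z j * ((∑ i, gq (gm m L) y i * (y i - X j i)) / nr (y - X j) ^ 3 -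
    Tq (y - X j) (gv (gm m L) y) (gv (gm m L) y) +
    2 * (if nr (y - X j) ≤ d / 2 then
      Tq (y - X j) (gv (gm m L) y) (gv (gN X m (d / 8)) y) else 0)) ≤
    C * z + C / L * pot X Z y

end Pool.Agent.Helper26.HW
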